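import Pool.Agent.Run7.h717.SB.Stm

/-!
Piece KK of project SB (helper717): for a unit vector `w` and two independent standard Gaussian
vectors `X`, `Y` of `R^d`: `E[sg<X,w> sg<Y,w> <X,Y>] = (E |N(0,1)|)^2`.  The mean `v` of `sg<X,w> X` is
fixed by the reflection in the line of `w`, so it is a multiple of `w`.
-/

set_option autoImplicit false

namespace Pool.Agent.Run7.h232.SB

open MeasureTheory ProbabilityTheory Filter Topology
open Pool.Agent.Run7.h717.SA Pool.Agent.Run7.h717.SB

theorem sg_meas : Measurable sg := by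
  unfold sg
  exact Measurable.ite measurableSet_Ici measurable_const measurable_const

theorem sg_abs (t : ℝ) : |sg t| = 1 := by
  unfold sg
  split_ifs <;> simp

theorem sg_mul_self (t : ℝ) : sg t * t = |t| := by
  unfold sg
  split_ifs with h
  · rw [one_mul, abs_of_nonneg h]
  · rw [abs_of_neg (not_le.1 h), neg_one_mul]

theorem law (d : ℕ) (w : E d) (hw : ‖w‖ = 1) :
    (stdGaussian (E d)).map (fun x => (inner ℝ x w : ℝ)) = gaussianReal 0 1 := by
  have h := IsGaussian.map_eq_gaussianReal (μ := stdGaussian (E d)) (innerSL ℝ w)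
  rw [integral_strongDual_stdGaussian, variance_dual_stdGaussian, innerSL_apply_norm, hw,
    one_pow, Real.toNNReal_one] at h
  rw [← h]
  congr 1
  funext x
  exact real_inner_comm _ _

theorem inner_meas (d : ℕ) (w : E d) : Measurable (fun x : E d => (inner ℝ x w : ℝ)) :=
  (continuous_id.inner continuous_const).measurable

theorem t_KK : S_KK := by
  intro d w hw
  have hid : Integrable (fun x : E d => x) (stdGaussian (E d)) := IsGaussian.integrable_id
  have hm : Measurable (fun x : E d => sg (inner ℝ x w) • x) :=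
    (sg_meas.comp (inner_meas d w)).smul measurable_id
  have hFi : Integrable (fun x : E d => sg (inner ℝ x w) • x) (stdGaussian (E d)) := by
    refine hid.mono hm.aestronglyMeasurable (ae_of_all _ fun x => ?_)
    rw [norm_smul, Real.norm_eq_abs, sg_abs, one_mul]
  obtain ⟨v, hv⟩ : ∃ v : E d, v = ∫ x, sg (inner ℝ x w) • x ∂(stdGaussian (E d)) := ⟨_, rfl⟩
  have hmain : ∫ p : E d × E d, sg (inner ℝ p.1 w) * sg (inner ℝ p.2 w) * inner ℝ p.1 p.2
      ∂((stdGaussian (E d)).prod (stdGaussian (E d))) = inner ℝ v v := by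
    have h1 : (fun p : E d × E d => sg (inner ℝ p.1 w) * sg (inner ℝ p.2 w) * inner ℝ p.1 p.2) =
        fun p : E d × E d => inner ℝ (sg (inner ℝ p.1 w) • p.1) (sg (inner ℝ p.2 w) • p.2) := by
      funext p
      rw [real_inner_smul_left, real_inner_smul_right]
      ring
    have hint : Integrable (fun p : E d × E d =>
        (inner ℝ (sg (inner ℝ p.1 w) • p.1) (sg (inner ℝ p.2 w) • p.2) : ℝ))
        ((stdGaussian (E d)).prod (stdGaussian (E d))) := by
      refine (hFi.norm.mul_prod hFi.norm).mono' ?_ (ae_of_all _ fun p => ?_)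
      · exact ((hm.comp measurable_fst).inner (hm.comp measurable_snd)).aestronglyMeasurable
      · exact norm_inner_le_norm _ _
    rw [h1, integral_prod _ hint]
    have h2 : ∀ x : E d, ∫ y, (inner ℝ (sg (inner ℝ x w) • x) (sg (inner ℝ y w) • y) : ℝ)
        ∂(stdGaussian (E d)) = inner ℝ v (sg (inner ℝ x w) • x) := by
      intro x
      rw [integral_inner hFi, ← hv, real_inner_comm]
    simp only [h2]
    rw [integral_inner hFi, ← hv]
  rw [hmain]
  obtain ⟨R, hRw, hRf⟩ : ∃ R : E d ≃ₗᵢ[ℝ] E d, R w = w ∧ ∀ u, R u = u → ∃ a : ℝ, a • w = u :=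
    ⟨(ℝ ∙ w).reflection,
      Submodule.reflection_mem_subspace_eq_self (Submodule.mem_span_singleton_self w),
      fun u hu => Submodule.mem_span_singleton.1 ((Submodule.reflection_eq_self_iff u).1 hu)⟩
  have hR : R v = v := by
    have h1 : R v = ∫ x, R (sg (inner ℝ x w) • x) ∂(stdGaussian (E d)) := by
      rw [hv]
      exact ((R.toContinuousLinearEquiv : E d →L[ℝ] E d).integral_comp_comm hFi).symm
    have h2 : ∀ x : E d, R (sg (inner ℝ x w) • x) = sg (inner ℝ (R x) w) • R x := by
      intro x
      have h3 : (inner ℝ (R x) w : ℝ) = inner ℝ x w := by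
        calc (inner ℝ (R x) w : ℝ) = inner ℝ (R x) (R w) := by rw [hRw]
          _ = inner ℝ x w := R.inner_map_map x w
      rw [h3, map_smul]
    rw [h1]
    simp only [h2]
    have h5 : ∫ x, sg (inner ℝ (R x) w) • R x ∂(stdGaussian (E d)) =
        ∫ y, sg (inner ℝ y w) • y ∂((stdGaussian (E d)).map R) :=
      (integral_map R.continuous.measurable.aemeasurable hm.aestronglyMeasurable).symm
    rw [h5, stdGaussian_map R, hv]
  obtain ⟨a, ha⟩ := hRf v hR
  have hww : (inner ℝ w w : ℝ) = 1 := by rw [real_inner_self_eq_norm_sq, hw, one_pow]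
  have hvw : (inner ℝ w v : ℝ) = ∫ t, |t| ∂(gaussianReal 0 1) := by
    rw [hv, ← integral_inner hFi, ← law d w hw,
      integral_map (inner_meas d w).aemeasurable (by fun_prop)]
    congr 1
    funext x
    rw [real_inner_smul_right, real_inner_comm, sg_mul_self]
  have haw : (inner ℝ w v : ℝ) = a := by rw [← ha, real_inner_smul_right, hww, mul_one]
  rw [c0, ← hvw, haw, ← ha, real_inner_smul_left, real_inner_smul_right, hww]
  ring

end Pool.Agent.Run7.h232.SB
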